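import Pool.Agent.U365.AQG.A
import Pool.Agent.Results.MP_484fb8_nt.AsymptoticEveryModulus
import Pool.Agent.Results.MP_484fb8_nt.EveryModulusSevenTenths

/-!
# Goldbach representations in primorial intervals of aliquot sums, cototients and similar functions

Let `s(m) = σ(m) - m` be the sum of the proper divisors of `m`. For almost all even integers `m` with a prime factor
larger than `m^(3/10 + ρ)` the integers `n = s(m)` and `n = m - φ(m)` are even and satisfy the assertion of the problem:
`n = p + q` with a prime `p` of the primorial interval just below the one of `n` and a prime `q` of one of the two intervals;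
the number of these representations is at least `1 / 21` of the expected one. It is the expected one, also if `p` is restricted
to a window, if the prime factor is larger than `m^(1/3 + ρ)`. So the assertion holds for `s(m)` and for `m - φ(m)` for at
least 70 per cent of all even `m`. The same is true for the even values of all functions `g(m) = α m + β f(m)`, where `f` is
any positive multiplicative function of moderate growth with `f(p) = p + c`, `c ≠ 0`, for all large primes `p`, as long as
`g(m)` is positive and not very small. The prime `p` belongs to an interval which can be as short as `n / log n`, so this does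
not follow from the number of all representations of `n` as a sum of two primes. These functions are not multiplicative,
nothing is known on the distribution of their values in the residue classes to large moduli, and their values are taken with
large multiplicities.

Proof. As for the sums of two primes in `MP_967f73_nt.AliquotSums` (starting file): `m = k p` with the large prime factor `p`,
so `g(m) = A p + B` runs through a residue class modulo `A`, `A ≤ x^(7/10 - ρ)`, and the theorems of the starting files on this
problem in the residue classes of every modulus (`AsymptoticEveryModulus`, `EveryModulusSevenTenths`) are applied for every `k`.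
-/

set_option autoImplicit false

namespace Pool.Agent.Results.MP_484fb8_nt.AliquotSums

open Finset Filter Topology
open Pool.Agent.U365.AQG (Moderate LargePrime AlmostAll aliquot)

/-- The assertion of the problem, with asymptotic formulas for the numbers of the representations. -/
abbrev Asym := Pool.Agent.Results.MP_484fb8_nt.AsymptoticEveryModulus.Holds

/-- The assertion of the problem, with a lower bound for the number of the representations. -/
abbrev Low := Pool.Agent.Results.MP_484fb8_nt.EveryModulusSevenTenths.Holds


theorem ebt_asym (ε : ℝ) (hε : 0 < ε) (W : ℕ) :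
    Pool.Agent.N733.AQ.EBT (2 / 3) (fun n => 2 ∣ n → Asym ε W n) :=
  Pool.Agent.N733.AQ.ebt_of (2 / 3) (Asym ε W) (fun ρ hρ A T =>
    Pool.Agent.Results.MP_484fb8_nt.AsymptoticEveryModulus.result ε ρ hε hρ W A T)

theorem ebt_low : Pool.Agent.N733.AQ.EBT (7 / 10) (fun n => 2 ∣ n → Low n) :=
  Pool.Agent.N733.AQ.ebt_of (7 / 10) Low (fun ρ hρ A T =>
    Pool.Agent.Results.MP_484fb8_nt.EveryModulusSevenTenths.result ρ hρ A T)

theorem both (n₀ : ℕ) (ρ : ℝ) (hρ : 0 < ρ) :
    AlmostAll (fun m => Even m → LargePrime (3 / 10 + ρ) m →
      (n₀ ≤ aliquot m ∧ Even (aliquot m) ∧ Low (aliquot m)) ∧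
        (n₀ ≤ m - Nat.totient m ∧ Even (m - Nat.totient m) ∧ Low (m - Nat.totient m))) := by
  have h := Pool.Agent.U365.AQG.both (7 / 10) (by norm_num) le_rfl Low ebt_low n₀ ρ hρ
  rwa [show (1 - 7 / 10 : ℝ) = 3 / 10 by norm_num] at h

open Classical in
/-- **Goldbach representations in primorial intervals of aliquot sums, cototients and similar functions.** Let `f` be a
positive multiplicative function of moderate growth with `f p = p + c`, `c ≠ 0`, for all large primes `p`, let `α`, `β` be
nonzero integers, `g(m) = α m + β f(m)` and `ρ > 0`. For almost all `m` with a prime factor `≥ m^(1/3 + ρ)` and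
`g(m) ≥ m / (log m)^C` the integer `g(m)`, if it is even, satisfies the assertion of the problem, with the predicted number
of representations, also in windows; with a prime factor `≥ m^(3/10 + ρ)` with at least `1 / 21` of this number. Euler's
function and the sum of the divisors are examples. For almost all even `m` with a prime factor `≥ m^(3/10 + ρ)` the sum `s(m)`
of the proper divisors and the cototient `m - φ(m)` are even, larger than any given `n₀`, and satisfy the assertion of the
problem; this is so for a proportion of at least `7/10` of the even integers `m`. -/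
theorem result :
    (∀ (f : ℕ → ℕ) (c α β : ℤ) (C W : ℕ) (ρ ε : ℝ), Moderate f c → c ≠ 0 → α ≠ 0 → β ≠ 0 → 0 < ρ → 0 < ε →
      AlmostAll (fun m => LargePrime (1 / 3 + ρ) m → (m : ℝ) / Real.log m ^ C ≤ ((α * m + β * f m : ℤ) : ℝ) →
        Even (α * m + β * f m) → Asym ε W (α * m + β * f m).toNat)) ∧
    (∀ (f : ℕ → ℕ) (c α β : ℤ) (C : ℕ) (ρ : ℝ), Moderate f c → c ≠ 0 → α ≠ 0 → β ≠ 0 → 0 < ρ →
      AlmostAll (fun m => LargePrime (3 / 10 + ρ) m → (m : ℝ) / Real.log m ^ C ≤ ((α * m + β * f m : ℤ) : ℝ) →
        Even (α * m + β * f m) → Low (α * m + β * f m).toNat)) ∧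
    (Moderate Nat.totient (-1) ∧ Moderate (fun m => ∑ d ∈ m.divisors, d) 1) ∧
    (∀ (n₀ : ℕ) (ρ : ℝ), 0 < ρ → AlmostAll (fun m => Even m → LargePrime (3 / 10 + ρ) m →
      (n₀ ≤ aliquot m ∧ Even (aliquot m) ∧ Low (aliquot m)) ∧
        (n₀ ≤ m - Nat.totient m ∧ Even (m - Nat.totient m) ∧ Low (m - Nat.totient m)))) ∧
    ∀ (n₀ : ℕ) (δ : ℝ), δ < 7 / 10 → ∃ N₀ : ℕ, ∀ N : ℕ, N₀ ≤ N → δ * (N / 2) ≤
      (((Icc 1 N).filter (fun m => Even m ∧ (n₀ ≤ aliquot m ∧ Even (aliquot m) ∧ Low (aliquot m)) ∧
        (n₀ ≤ m - Nat.totient m ∧ Even (m - Nat.totient m) ∧ Low (m - Nat.totient m)))).card : ℝ) := by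
  refine ⟨fun f c α β C W ρ ε hf hc hα hβ hρ hε => ?_, fun f c α β C ρ hf hc hα hβ hρ => ?_,
    ⟨Pool.Agent.U365.AQG.moderate_totient, Pool.Agent.U365.AQG.moderate_sigma⟩,
    fun n₀ ρ hρ => both n₀ ρ hρ, fun n₀ δ hδ => ?_⟩
  · have h := Pool.Agent.U365.AQG.general (2 / 3) (by norm_num) (by norm_num) (Asym ε W) (ebt_asym ε hε W)
      f c α β C ρ hf hc hα hβ hρ
    rwa [show (1 - 2 / 3 : ℝ) = 1 / 3 by norm_num] at h
  · have h := Pool.Agent.U365.AQG.general (7 / 10) (by norm_num) (by norm_num) Low ebt_low
      f c α β C ρ hf hc hα hβ hρ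
    rwa [show (1 - 7 / 10 : ℝ) = 3 / 10 by norm_num] at h
  · obtain ⟨N₀, h⟩ := Pool.Agent.U365.AQG.density (7 / 10) (by norm_num)
      (fun m => (n₀ ≤ aliquot m ∧ Even (aliquot m) ∧ Low (aliquot m)) ∧
        (n₀ ≤ m - Nat.totient m ∧ Even (m - Nat.totient m) ∧ Low (m - Nat.totient m))) (fun η hη => by
        rw [show (1 - 7 / 10 : ℝ) = 3 / 10 by norm_num]
        exact both n₀ η hη) δ hδ
    exact ⟨N₀, fun N hN => (h N hN).trans (Nat.cast_le.2 (Pool.Agent.U365.AQG.card_mono' (fun m hm => hm)))⟩

end Pool.Agent.Results.MP_484fb8_nt.AliquotSums
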