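import Pool.Agent.Results.MP_484fb8_nt.ThinFamilies
import Pool.Agent.U837.CC.Mu

/-!
# Goldbach representations in primorial intervals, for all even integers near multiples of concatenated polynomial values

For almost all `n ≤ x` the assertion of the problem, with the number of representations predicted by Hardy and
Littlewood, holds for ALL the positive even integers within `log ^ W x` of ALL the multiples `h a`, `h ≤ log ^ J x`, of the
integers `a` whose digits in some base `b ≤ log ^ W x` are those of `f_1(n)`, `f_2(n)`, ..., `f_r(n)` written one after the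
other, where `f_1, ..., f_r` are ANY integer polynomials of distinct degrees between `1` and `D` with coefficients of
absolute value at most `log ^ W x`. For given bases and polynomials these are thin sets: `x` integers of the size
`x ^ (deg f_1 + ... + deg f_r)`.

Definitions used from `Pool.Agent.H560R3.GB` (starting files): `sing m`: the singular series
`2 C₂ ∏_{p ∣ m, p > 2} (p - 1) / (p - 2)`, where `C₂ = ∏_{p > 2} (1 - 1 / (p - 1) ^ 2)`.

Method: the integers with a given number of digits in every block are the values `∑_i b ^ (e_i) f_i(n)` of a polynomial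
with huge coefficients. An inverse theorem for Weyl sums with ALL the coefficients (`Pool.Agent.U837.CC.IWF_all`, deduced
from the one for the leading coefficient in `H373R2/NB/Weyl`) shows, one block after the other, that a frequency `β` with
a large exponential sum is such that all the `b ^ (e_i) β` are close to rational numbers with one small denominator (here the
degrees have to be distinct); only a few frequencies have this property (`Pool.Agent.U837.CC.count_vec`), so that these values
and their multiples have a minimal additive energy of high order (`Pool.Agent.U837.CC.cat_mult`) and the theorem of the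
starting files on thin families of this kind (`R459.near_even`) applies. The number of the choices of the digit lengths, of
the base, of the factor and of the polynomials is only a power of the logarithm.
-/

set_option autoImplicit false

namespace Pool.Agent.Results.MP_484fb8_nt.Concatenations

open Finset Polynomial
open Pool.Agent.H560R3.GB (sing)

/-- `#(n)`: the product of the first `n` primes. -/
noncomputable def P (n : ℕ) : ℕ := ∏ i ∈ range n, Nat.nth Nat.Prime i

/-- The number of primes `p` in the `n`-th primorial interval such that `m - p` is a prime which lies in the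
`n`-th or in the `n + 1`-st primorial interval. -/
noncomputable def R (n m : ℕ) : ℕ :=
  ((Icc (P (n - 1) + 1) (P n + 1)).filter
    (fun p => p.Prime ∧ (m - p).Prime ∧ P (n - 1) + 1 ≤ m - p ∧ m - p ≤ P (n + 1) + 1)).card

/-- If `m` belongs to the `n + 1`-st primorial interval (`n ≥ 1`), then `m = p + q` where `p` is a prime in the
`n`-th primorial interval and `q` is a prime in the `n`-th or in the `n + 1`-st one; moreover, up to a relative
error of at most `ε`, the number of these representations is `sing m * #(n) / log ^ 2 m`. -/
def Holds (ε : ℝ) (m : ℕ) : Prop :=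
  ∀ n : ℕ, 1 ≤ n → P n + 1 ≤ m → m ≤ P (n + 1) + 1 →
    (∃ p q : ℕ, p.Prime ∧ q.Prime ∧ m = p + q ∧ P (n - 1) + 1 ≤ p ∧ p ≤ P n + 1 ∧ P (n - 1) + 1 ≤ q ∧ q ≤ P (n + 1) + 1) ∧
    |(R n m : ℝ) - sing m * P n / Real.log m ^ 2| ≤ ε * (sing m * P n / Real.log m ^ 2)

lemma holds_of (ε : ℝ) (hε : 0 < ε) : ∃ m₀ : ℕ, ∀ m : ℕ, m₀ ≤ m → 2 ∣ m →
    Pool.Agent.W93.PG.WinP (min ε (1 / 2) / 4) 2 m → Holds ε m := MP_484fb8_nt.ThinFamilies.holds_of ε hε

/-- The number whose digits in base `b`, read from the left to the right, are those of `f(n)`, `f ∈ F`, written one after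
the other. -/
noncomputable def concat (b : ℕ) (F : List ℤ[X]) (n : ℕ) : ℕ :=
  Nat.ofDigits b ((F.reverse.map (fun f => Nat.digits b (f.eval (n : ℤ)).toNat)).flatten)

/-- The base `b` satisfies `2 ≤ b ≤ r`; the list `F` is not empty, and the members of `F` have distinct degrees between `1`
and `D`, coefficients of absolute value at most `r`, and nonnegative values at `n`. -/
def Small (D : ℕ) (r : ℝ) (n b : ℕ) (F : List ℤ[X]) : Prop :=
  (2 ≤ b ∧ (b : ℝ) ≤ r) ∧ F ≠ [] ∧ (F.map natDegree).Nodup ∧
    ∀ f ∈ F, 1 ≤ f.natDegree ∧ f.natDegree ≤ D ∧ (∀ i, |((f.coeff i : ℤ) : ℝ)| ≤ r) ∧ 0 ≤ f.eval (n : ℤ)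

open Classical in
/-- The number of the `1 ≤ n ≤ x` for which there are a base `b` and a list `F` of polynomials with
`Small D (log ^ W x) n b F`, a factor `1 ≤ h ≤ log ^ J x` and an even integer `m > 0` with
`|m - h * concat b F n| ≤ log ^ W x` for which `Holds ε m` fails. -/
noncomputable def exceptions (D : ℕ) (ε : ℝ) (J W x : ℕ) : ℕ :=
  ((Icc 1 x).filter (fun n => ∃ (b : ℕ) (F : List ℤ[X]), Small D (Real.log x ^ W) n b F ∧
    ∃ h m : ℕ, 1 ≤ h ∧ (h : ℝ) ≤ Real.log x ^ J ∧ 0 < m ∧ Even m ∧ |(m : ℝ) - h * concat b F n| ≤ Real.log x ^ W ∧
      ¬ Holds ε m)).card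

/-- Let `D`, `J`, `W`, `U` and `ε > 0` be fixed, and let `x` be large. For all but at most `x / log ^ U x` of
the integers `1 ≤ n ≤ x`, for ALL the bases `b ≤ log ^ W x`, ALL the lists `F` of integer polynomials of distinct degrees between
`1` and `D` with coefficients of absolute value at most `log ^ W x` and nonnegative values at `n` and ALL the factors
`1 ≤ h ≤ log ^ J x`, ALL the even integers `m > 0` within `log ^ W x` of `h` times the integer whose digits in base `b` are those
of `f(n)`, `f ∈ F`, written one after the other satisfy the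
assertion of the problem (if `m` belongs to the primorial interval number `i + 1`, `i ≥ 1`, then `m = p + q` with a prime `p`
of the interval number `i` and a prime `q` of one of the two intervals), and the number of these representations is
`sing m * #(i) / log ^ 2 m` up to a relative error of at most `ε`. -/
theorem result (D : ℕ) (ε : ℝ) (hε : 0 < ε) (J W U : ℕ) : ∃ x₀ : ℕ, ∀ x : ℕ, x₀ ≤ x →
    (exceptions D ε J W x : ℝ) ≤ x / Real.log x ^ U := by
  classical
  obtain ⟨m₀, hm₀⟩ := holds_of ε hε
  obtain ⟨x₀, h0⟩ := Pool.Agent.U837.CC.cat_mult_rev D (2) W J U m₀ (min ε (1 / 2) / 4) (div_pos (lt_min hε (by norm_num)) (by norm_num))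
    (fun m => Holds ε m) hm₀
  refine ⟨x₀, fun x hx => ?_⟩
  unfold exceptions
  refine h0 x hx _ ?_
  intro n hn
  rw [mem_filter] at hn
  obtain ⟨g1, b, F, ⟨⟨a1, a2⟩, a3, a4, a5⟩, h, m, g2⟩ := hn
  exact ⟨g1, b, F, a1, a2, ⟨a3, a4, a5⟩, h, m, g2⟩

end Pool.Agent.Results.MP_484fb8_nt.Concatenations
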