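import Pool.Agent.U828.KD.Even
import Pool.Agent.W93.PG7

/-!
# Goldbach representations in primorial intervals, for ALL even integers near almost all values of an arbitrary function of
higher convexity

Fix `r ≥ 2`. Let `f` be ANY function on `{1, ..., x}`, `x ≥ N ^ (1 / r + η)`, with values in `[-B N, B N]`, whose differences
of order `r` are all at least `N / (x ^ r log ^ C N)`, or all at most the negative of this number. Then for all but
`x / log ^ U N` of the `m ≤ x` the assertion of the problem holds for ALL the positive even integers at a distance of at most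
`log ^ C N` from `f m`, with the expected number of representations up to the factor `1 ± ε`.

For `r = 2` these are the strictly convex (or concave) functions; for larger `r` there are only `N ^ (1 / r + η)` points, so
the even integers run through neighbourhoods of arbitrarily sparse sets (any power `N ^ θ`, `θ > 0`), and no regularity is
assumed besides the sign and the size of the `r`-th differences. The earlier results of this problem on even integers in
thin sets treat digit sets, quadratic values, smooth numbers, aliquot sums, random sums and families of nearly minimal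
additive energy.

Proof: the energy theorem `Pool.Agent.U828.KD.energy_r` (helper828: an `r`-th derivative test for arbitrary sequences, and
Fejér kernels), the passage to all the integers near the values (`Pool.Agent.U828.KD.nearEven`, helper828), and the theorems
`Pool.Agent.TH935.GF.fam_win` (windows, families of nearly minimal energy) and `Pool.Agent.W93.PG.reps_of_win` of the
starting files.

Definitions used, in `Pool.Agent.H560R3.GB`: `C₂`: the twin prime constant `∏_{p > 2} (1 - 1 / (p - 1) ^ 2)`; `sing m`: the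
singular series `2 C₂ ∏_{p ∣ m, p > 2} (p - 1) / (p - 2)`.
-/

set_option autoImplicit false

namespace Pool.Agent.Results.MP_484fb8_nt.HigherConvexNeighbourhoods

open Finset Pool.Agent.H560R3.GB

/-- `#(n)`: the product of the first `n` primes. -/
noncomputable def P (n : ℕ) : ℕ := ∏ i ∈ range n, Nat.nth Nat.Prime i

/-- The number of primes `p` in the `n`-th primorial interval such that `m - p` is a prime which lies in the
`n`-th or in the `n + 1`-st primorial interval. -/
noncomputable def R (n m : ℕ) : ℕ :=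
  ((Icc (P (n - 1) + 1) (P n + 1)).filter
    (fun p => p.Prime ∧ (m - p).Prime ∧ P (n - 1) + 1 ≤ m - p ∧ m - p ≤ P (n + 1) + 1)).card

/-- If `m` belongs to the `n + 1`-st primorial interval (`n ≥ 1`), then `m = p + q` where `p` is a prime in the
`n`-th primorial interval and `q` is a prime in the `n`-th or in the `n + 1`-st one; moreover, up to a relative
error of at most `ε`, the number of these representations is `sing m * #(n) / log ^ 2 m`. -/
def Holds (ε : ℝ) (m : ℕ) : Prop :=
  ∀ n : ℕ, 1 ≤ n → P n + 1 ≤ m → m ≤ P (n + 1) + 1 →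
    (∃ p q : ℕ, p.Prime ∧ q.Prime ∧ m = p + q ∧ P (n - 1) + 1 ≤ p ∧ p ≤ P n + 1 ∧ P (n - 1) + 1 ≤ q ∧ q ≤ P (n + 1) + 1) ∧
    |(R n m : ℝ) - sing m * P n / Real.log m ^ 2| ≤ ε * (sing m * P n / Real.log m ^ 2)

lemma holds_of (ε : ℝ) (hε : 0 < ε) : ∃ m₀ : ℕ, ∀ m : ℕ, m₀ ≤ m → 2 ∣ m →
    Pool.Agent.W93.PG.WinP (min ε (1 / 2) / 4) 2 m → Holds ε m := by
  obtain ⟨m₀, h0⟩ := Pool.Agent.W93.PG.reps_of_win (min ε (1 / 2)) (lt_min hε (by norm_num))
    ((min_le_right _ _).trans (by norm_num))
  refine ⟨m₀ + 3, ?_⟩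
  intro m hm _ hwin n hn h2 h3
  have h4 := h0 m (by omega) hwin n hn h2 h3
  have hm0 : (3 : ℝ) ≤ m := by exact_mod_cast (by omega : 3 ≤ m)
  have hlog : 0 < Real.log m := Real.log_pos (by linarith)
  have hs := Pool.Agent.W93.GB.one_le_sing m
  have hP : (0 : ℝ) < P n := by exact_mod_cast Pool.Agent.W93.PG.PR_pos n
  have hmain : 0 < sing m * P n / Real.log m ^ 2 := by positivity
  have hR : R n m = Pool.Agent.W93.PG.reps n m := rfl
  have hPR : Pool.Agent.W93.PG.PR n = P n := rfl
  rw [← hR, hPR] at h4
  have h5 : |(R n m : ℝ) - sing m * P n / Real.log m ^ 2| ≤ ε * (sing m * P n / Real.log m ^ 2) :=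
    h4.trans (mul_le_mul_of_nonneg_right (min_le_left _ _) hmain.le)
  have h6 : |(R n m : ℝ) - sing m * P n / Real.log m ^ 2| ≤ 1 / 2 * (sing m * P n / Real.log m ^ 2) :=
    h4.trans (mul_le_mul_of_nonneg_right (min_le_right _ _) hmain.le)
  refine ⟨?_, h5⟩
  have h7 : (0 : ℝ) < R n m := by
    rw [abs_le] at h6
    linarith [h6.1]
  have h8 : 0 < R n m := by exact_mod_cast h7
  unfold R at h8
  rw [card_pos] at h8
  obtain ⟨p, hp⟩ := h8
  rw [mem_filter, mem_Icc] at hp
  obtain ⟨⟨p1, p2⟩, p3, p4, p5, p6⟩ := hp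
  exact ⟨p, m - p, p3, p4, by have := p4.pos; omega, p1, p2, p5, p6⟩

/-- The differences of order `r` of `f` on `{1, ..., x}` are all at least `κ`, or all at most `-κ`. Here `fwdDiff 1 f m`
is the difference `f (m + 1) - f m`. -/
def Bent (r x : ℕ) (f : ℕ → ℝ) (κ : ℝ) : Prop :=
  (∀ m, 1 ≤ m → m + r ≤ x → κ ≤ (fwdDiff 1)^[r] f m) ∨ (∀ m, 1 ≤ m → m + r ≤ x → (fwdDiff 1)^[r] f m ≤ -κ)

open Classical in
/-- Let `r ≥ 2`, `B`, `C`, `U`, `η > 0` and `ε > 0` be fixed. For all large `N`, all `x ≥ N ^ (1 / r + η)` and ALL functions `f`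
with values in `[-B N, B N]` on `{1, ..., x}` whose differences of order `r` are all at least `N / (x ^ r log ^ C N)`, or all at
most the negative of this number: for all but at most `x / log ^ U N` of the `m ≤ x`, the assertion of the problem holds for
ALL the even integers `k > 0` with `|k - f m| ≤ log ^ C N`, and the number of the representations required there is as
predicted, up to a relative error of at most `ε` (`Holds ε k`). -/
theorem result (r : ℕ) (hr : 2 ≤ r) (B C U : ℕ) (η ε : ℝ) (hη : 0 < η) (hε : 0 < ε) :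
    ∃ N₀ : ℕ, ∀ N : ℕ, N₀ ≤ N → ∀ x : ℕ, (N : ℝ) ^ (1 / (r : ℝ) + η) ≤ x →
    ∀ f : ℕ → ℝ, (∀ m ∈ Icc 1 x, |f m| ≤ B * N) → Bent r x f (N / ((x : ℝ) ^ r * Real.log N ^ C)) →
    (((Icc 1 x).filter (fun m => ¬ ∀ k : ℕ, 0 < k → Even k → |(k : ℝ) - f m| ≤ Real.log N ^ C → Holds ε k)).card : ℝ) ≤
      x / Real.log N ^ U := by
  obtain ⟨m₀, hm₀⟩ := holds_of ε hε
  obtain ⟨N₀, h0⟩ := Pool.Agent.U828.KD.nearEven r hr 2 B C U m₀ (min ε (1 / 2) / 4) η
    (div_pos (lt_min hε (by norm_num)) (by norm_num)) hη (Holds ε) hm₀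
  refine ⟨N₀, fun N hN x hx f hf hb => h0 N hN x hx f hf hb _ (filter_subset _ _) fun m hm => ?_⟩
  have h1 := (mem_filter.1 hm).2
  push Not at h1
  obtain ⟨k, h2, h3, h4, h5⟩ := h1
  exact ⟨k, h2, h3, h4, h5⟩

end Pool.Agent.Results.MP_484fb8_nt.HigherConvexNeighbourhoods
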