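import Pool.Agent.Results.MP_484fb8_nt.ThinFamilies
import Pool.Agent.U837.RP.Mul

/-!
# Goldbach representations in primorial intervals, for all even integers near the values of ALL small integer polynomials
# in several variables

For almost all points `n = (n_1, ..., n_k)` of the cube `[1, x] ^ k` the assertion of the problem, with the number of
representations predicted by Hardy and Littlewood, holds for ALL the positive even integers within `log ^ W x` of the
values `F(n)` of ALL the nonconstant integer polynomials `F` in `k` variables of degree at most `D` with coefficients of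
absolute value at most `log ^ W x`: for example near `n_1 n_2 ⋯ n_k`, near `n_1 ^ 4 + n_2 ^ 4` and near the discriminant
`n_1 ^ 2 - 4 n_2 n_3`, simultaneously. The values form thin sets: there are `x ^ k` points and the values have the size
`x ^ deg F`.

Definitions used from `Pool.Agent.H560R3.GB` (starting files): `sing m`: the singular series
`2 C₂ ∏_{p ∣ m, p > 2} (p - 1) / (p - 2)`, where `C₂ = ∏_{p > 2} (1 - 1 / (p - 1) ^ 2)`.

Method: for a polynomial `F` of degree `d ≥ 1` there is a direction `a ∈ {0, ..., D} ^ k` (Combinatorial Nullstellensatz) such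
that `F` restricted to the lines `t ↦ n + t a` is a polynomial of degree `d` in `t` with a small leading coefficient, but with
arbitrarily large other coefficients. By the inverse theorem for Weyl sums (`H373R2/NB/Weyl`) the values of such a
polynomial at consecutive integers have a minimal additive energy of high order, uniformly in the other coefficients
(`Pool.Agent.U837.RP.poly_near`), and the theorem of the starting files on thin families of this kind
(`R459.near_even`) applies on every line. The number of the small polynomials is only a power of the logarithm.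
-/

set_option autoImplicit false

namespace Pool.Agent.Results.MP_484fb8_nt.SeveralVariables

open Finset
open Pool.Agent.H560R3.GB (sing)

/-- `#(n)`: the product of the first `n` primes. -/
noncomputable def P (n : ℕ) : ℕ := ∏ i ∈ range n, Nat.nth Nat.Prime i

/-- The number of primes `p` in the `n`-th primorial interval such that `m - p` is a prime which lies in the
`n`-th or in the `n + 1`-st primorial interval. -/
noncomputable def R (n m : ℕ) : ℕ :=
  ((Icc (P (n - 1) + 1) (P n + 1)).filter
    (fun p => p.Prime ∧ (m - p).Prime ∧ P (n - 1) + 1 ≤ m - p ∧ m - p ≤ P (n + 1) + 1)).card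

/-- If `m` belongs to the `n + 1`-st primorial interval (`n ≥ 1`), then `m = p + q` where `p` is a prime in the
`n`-th primorial interval and `q` is a prime in the `n`-th or in the `n + 1`-st one; moreover, up to a relative
error of at most `ε`, the number of these representations is `sing m * #(n) / log ^ 2 m`. -/
def Holds (ε : ℝ) (m : ℕ) : Prop :=
  ∀ n : ℕ, 1 ≤ n → P n + 1 ≤ m → m ≤ P (n + 1) + 1 →
    (∃ p q : ℕ, p.Prime ∧ q.Prime ∧ m = p + q ∧ P (n - 1) + 1 ≤ p ∧ p ≤ P n + 1 ∧ P (n - 1) + 1 ≤ q ∧ q ≤ P (n + 1) + 1) ∧
    |(R n m : ℝ) - sing m * P n / Real.log m ^ 2| ≤ ε * (sing m * P n / Real.log m ^ 2)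

lemma holds_of (ε : ℝ) (hε : 0 < ε) : ∃ m₀ : ℕ, ∀ m : ℕ, m₀ ≤ m → 2 ∣ m →
    Pool.Agent.W93.PG.WinP (min ε (1 / 2) / 4) 2 m → Holds ε m := MP_484fb8_nt.ThinFamilies.holds_of ε hε

/-- `F` is not constant, has a total degree of at most `D`, and its coefficients have an absolute value of at most `r`. -/
def Small {k : ℕ} (F : MvPolynomial (Fin k) ℤ) (D : ℕ) (r : ℝ) : Prop :=
  1 ≤ F.totalDegree ∧ F.totalDegree ≤ D ∧ ∀ s, |((F.coeff s : ℤ) : ℝ)| ≤ r

/-- The value of `F` at the point `n`. -/
noncomputable def value {k : ℕ} (F : MvPolynomial (Fin k) ℤ) (n : Fin k → ℕ) : ℤ :=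
  MvPolynomial.eval (fun i => (n i : ℤ)) F

open Classical in
/-- The number of the points `n` of `{1, ..., x} ^ k` for which `Holds` fails for some even integer `m > 0` with
`|m - F(n)| ≤ log ^ W x` and some `F` with `Small F D (log ^ W x)`. -/
noncomputable def exceptions (k D : ℕ) (ε : ℝ) (W x : ℕ) : ℕ :=
  ((Fintype.piFinset (fun _ : Fin k => Icc 1 x)).filter (fun n : Fin k → ℕ => ∃ F : MvPolynomial (Fin k) ℤ,
    Small F D (Real.log x ^ W) ∧ ∃ m : ℕ, 0 < m ∧ Even m ∧ |(m : ℝ) - value F n| ≤ Real.log x ^ W ∧ ¬ Holds ε m)).card

/-- Let `k`, `D`, `W`, `U` and `ε > 0` be fixed, and let `x` be large. For all but at most `x ^ k / log ^ U x` of the points `n` of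
`{1, ..., x} ^ k`, and for ALL the nonconstant integer polynomials `F` in `k` variables of total degree at most `D` with
coefficients of absolute value at most `log ^ W x`, ALL the even integers `m > 0` with `|m - F(n)| ≤ log ^ W x` satisfy the
assertion of the problem (if `m` belongs to the primorial interval number `i + 1`, `i ≥ 1`, then `m = p + q` with a prime `p`
of the interval number `i` and a prime `q` of one of the two intervals), and the number of these representations is
`sing m * #(i) / log ^ 2 m` up to a relative error of at most `ε`. -/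
theorem result (k D W U : ℕ) (ε : ℝ) (hε : 0 < ε) :
    ∃ x₀ : ℕ, ∀ x : ℕ, x₀ ≤ x → (exceptions k D ε W x : ℝ) ≤ (x : ℝ) ^ k / Real.log x ^ U := by
  classical
  obtain ⟨m₀, hm₀⟩ := holds_of ε hε
  obtain ⟨x₀, h0⟩ := Pool.Agent.U837.RP.multi_values k D (2) W U m₀ (min ε (1 / 2) / 4)
    (div_pos (lt_min hε (by norm_num)) (by norm_num)) (Holds ε) (fun m h1 h2 h3 => hm₀ m h1 h2 h3)
  refine ⟨x₀, fun x hx => ?_⟩
  unfold exceptions
  refine h0 x hx _ ?_
  intro n hn
  rw [mem_filter, Fintype.mem_piFinset] at hn
  obtain ⟨h1, F, ⟨F1, F2, F3⟩, m, m1, m2, m3, m4⟩ := hn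
  exact ⟨h1, F, F1, F2, F3, m, m1, m2, m3, m4⟩

end Pool.Agent.Results.MP_484fb8_nt.SeveralVariables
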